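import Mathlib
import Pool.Agent.W307.SE.Main

/-!
# All the moments of the order of the 2-Selmer group of the twists `E^D(t)` in short intervals

Let `E` be an elliptic curve over `ℚ` with all its points of order two rational and `D(t)` a product
of pairwise non-proportional linear polynomials with integer coefficients (for example `D(t) = t`,
that is, all the quadratic twists). For all `k`, `L` the `k`-th moment of the order of the 2-Selmer
group of `E^D(t)` over the integers `t` of an interval `(N, N + M]` with `|N| ≤ M ^ L` is bounded.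
-/

namespace Pool.Agent.Results.MP_a3f657_nt.SelmerTwistMoments

open Finset

/-- The local condition at a completion `K` of `ℚ`: there is a point `(x, y)`, `y ≠ 0`, of
`y² = x³ + A x + B` over `K` such that `(x - e) * d e` is a square for all the integer roots `e` of
`x³ + A x + B`. (Every class of `E(K) / 2 E(K)` contains a point with `y ≠ 0`.) -/
def Local (K : Type) [Field K] (A B : ℤ) (d : ℤ → ℤ) : Prop :=
  ∃ x y : K, y ≠ 0 ∧ y ^ 2 = x ^ 3 + A * x + B ∧
    ∀ e : ℤ, e ^ 3 + A * e + B = 0 → IsSquare ((x - e) * d e)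

/-- The 2-Selmer group of `y² = x³ + A x + B`, a curve with three integer roots. As `E[2]` is the
group of the families of signs with product one indexed by the roots, an element of the 2-Selmer
group is a family of classes of nonzero rational numbers modulo squares indexed by the roots `e`,
given by squarefree integers `d e` (`d e = 1` if `e` is not a root), which over `ℝ` and over `ℚ_[p]`
for all primes `p` is the family of the classes of `x - e` for a point of the curve. -/
def Sel2 (A B : ℤ) : Set (ℤ → ℤ) :=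
  {d | (∀ e, Squarefree (d e)) ∧ (∀ e : ℤ, e ^ 3 + A * e + B ≠ 0 → d e = 1) ∧ Local ℝ A B d ∧
    ∀ (p : ℕ) [Fact p.Prime], Local ℚ_[p] A B d}

/-- the 2-Selmer group of the quadratic twist `y² = x³ + d² A x + d³ B` of `y² = x³ + A x + B` -/
def Sel2Tw (A B d : ℤ) : Set (ℤ → ℤ) := Sel2 (d ^ 2 * A) (d ^ 3 * B)

/-- `D(t) = ∏ i, (γ i * t + δ i)` -/
def D {m : ℕ} (γ δ : Fin m → ℤ) (t : ℤ) : ℤ := ∏ i, (γ i * t + δ i)

/-- **Theorem.** Let `E : y² = x³ + A x + B` be an elliptic curve with
`x³ + A x + B = (x - e₁) (x - e₂) (x - e₃)`, all the `e_i` integers, and `D(t)` the product of the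
pairwise non-proportional polynomials `γ_i t + δ_i`, `γ_i ≠ 0`. Then the 2-Selmer groups of the
twists `E^D(t)`, `D(t) ≠ 0`, are finite, and for all `k` and `L` there is `C` such that for all
integers `N` and `M ≥ 1` with `|N| ≤ M ^ L` the sum of the `k`-th powers of their orders over the
`t` with `N < t ≤ N + M`, `D(t) ≠ 0`, is at most `C * M`. -/
theorem result (A B e₁ e₂ e₃ : ℤ) (hE : 4 * A ^ 3 + 27 * B ^ 2 ≠ 0)
    (he : ∀ x : ℤ, x ^ 3 + A * x + B = (x - e₁) * (x - e₂) * (x - e₃))
    (m : ℕ) (γ δ : Fin m → ℤ) (hγ : ∀ i, γ i ≠ 0)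
    (hγδ : ∀ i j, i ≠ j → γ i * δ j ≠ γ j * δ i) (k L : ℕ) :
    (∀ t : ℤ, D γ δ t ≠ 0 → (Sel2Tw A B (D γ δ t)).Finite) ∧
    ∃ C : ℝ, ∀ (N : ℤ) (M : ℕ), 1 ≤ M → |N| ≤ (M : ℤ) ^ L →
      ∑ t ∈ (Ioc N (N + M)).filter (fun t => D γ δ t ≠ 0),
        ((Sel2Tw A B (D γ δ t)).ncard : ℝ) ^ k ≤ C * M :=
  Pool.Agent.W307.SE.selk hE he m γ δ hγ hγδ k L

end Pool.Agent.Results.MP_a3f657_nt.SelmerTwistMoments
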